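import Pool.Agent.T9h61.DB.Main

/-!
# Characterisation of the `α`-admissible sets

A Borel set `Ω ⊆ ℂ` is `α`-admissible if `|⟨∂χ_Ω/∂z̄, f⟩| ≤ C ‖f‖_{Lip α}` for all
`f ∈ C_c^∞(ℂ)`.  We characterise these sets for all `α > 0`, by the integral over the scales
`t ∈ (0, 1)` of the `L¹` norm of the gradient of the mollified indicator function, and for
`0 < α < 1` by the finiteness of the fractional perimeter of order `1 - α`.

Sufficiency: the differences of order `k` give an approximate identity `P_t`, a combination of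
averages, with `‖f - P_t f‖_∞ ≤ C t^α ‖f‖`; the pairing is telescoped along `P_t ∘ P_t`,
`t = t₀ 2^{-m}`, one factor being moved to the indicator function.  Necessity: for finitely many
scales the test function `∑ t^α (sign(∂(χ_Ω * φ_t)) * φ_t)` has bounded norm.  For `α < 1`, the
difference of two consecutive mollifications is a divergence of mollifications, and for an
indicator function the `L¹` distance to its mollification is an interaction energy of `Ω` and its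
complement.
-/

set_option autoImplicit false

open MeasureTheory Set
open scoped ENNReal NNReal ContDiff

namespace Pool.Agent.Results.MP_d3add2_an.AdmissibleSets

/-- `∂f/∂z̄ = (∂f/∂x + i ∂f/∂y) / 2` -/
noncomputable def dbar (f : ℂ → ℂ) (z : ℂ) : ℂ :=
  (fderiv ℝ f z 1 + Complex.I * fderiv ℝ f z Complex.I) / 2

/-- The norm of the space `Lip α` with differences of order `k` (with values in `[0, ∞]`):
`sup |f| + sup_{h ≠ 0} sup_z |Δ_h^k f(z)| / |h|^α`. -/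
noncomputable def lipNorm (α : ℝ) (k : ℕ) (f : ℂ → ℂ) : ℝ≥0∞ :=
  (⨆ z : ℂ, ‖f z‖ₑ) +
    ⨆ (h : ℂ) (_ : h ≠ 0) (z : ℂ), ‖(fwdDiff h)^[k] f z‖ₑ / ENNReal.ofReal (‖h‖ ^ α)

/-- `Ω` is `α`-admissible (with the norm defined by differences of order `k`): for some finite `C`,
`|⟨∂χ_Ω/∂z̄, f⟩| = |-∫_Ω ∂f/∂z̄ dA| ≤ C ‖f‖_{Lip α}` for all `f ∈ C_c^∞(ℂ)`. -/
def Admissible (α : ℝ) (k : ℕ) (Ω : Set ℂ) : Prop :=
  ∃ C : ℝ≥0, ∀ f : ℂ → ℂ, ContDiff ℝ ∞ f → HasCompactSupport f →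
    ‖-∫ z in Ω, dbar f z‖ₑ ≤ C * lipNorm α k f

/-- The mollified indicator function `χ_Ω * φ_t`, where `φ_t(z) = t⁻² φ(z / t)`. -/
noncomputable def mollified (Ω : Set ℂ) (φ : ℂ → ℝ) (t : ℝ) (z : ℂ) : ℝ :=
  ∫ w in Ω, φ ((z - w) / t) / t ^ 2

/-- `∫_0^1 t^{α-1} ‖∇(χ_Ω * φ_t)‖_{L¹(ℂ)} dt` -/
noncomputable def scaleIntegral (α : ℝ) (Ω : Set ℂ) (φ : ℂ → ℝ) : ℝ≥0∞ :=
  ∫⁻ t in Ioo (0 : ℝ) 1,
    ENNReal.ofReal (t ^ (α - 1)) * ∫⁻ z, ‖fderiv ℝ (mollified Ω φ t) z‖ₑ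

/-- The fractional perimeter of order `1 - α`, restricted to distances less than one:
`∫_Ω ∫_{Ω^c, |z - w| < 1} |z - w|^{α-3} dA(w) dA(z)`. -/
noncomputable def fracPerimeter (α : ℝ) (Ω : Set ℂ) : ℝ≥0∞ :=
  ∫⁻ z in Ω, ∫⁻ w in Ωᶜ ∩ Metric.ball z 1, ENNReal.ofReal (‖z - w‖ ^ (α - 3))

/-- **Characterisation of the `α`-admissible sets.**  Let `α > 0`, let `k > α` be an integer and
let `Ω` be a Borel set.
(1) For every real `φ ∈ C_c^∞(ℂ)` with nonzero integral, `Ω` is `α`-admissible if and only if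
`∫_0^1 t^{α-1} ‖∇(χ_Ω * φ_t)‖_{L¹} dt < ∞`.
(2) If `Ω` is `α`-admissible, then this integral is finite for every real `φ ∈ C_c^∞(ℂ)`.
(3) If `α < 1`, then `Ω` is `α`-admissible if and only if
`∫_Ω ∫_{Ω^c, |z - w| < 1} |z - w|^{α-3} dA dA < ∞`. -/
theorem result (α : ℝ) (hα : 0 < α) (k : ℕ) (hk : α < k) (Ω : Set ℂ) (hΩ : MeasurableSet Ω) :
    (∀ φ : ℂ → ℝ, ContDiff ℝ ∞ φ → HasCompactSupport φ → ∫ z, φ z ≠ 0 →
      (Admissible α k Ω ↔ scaleIntegral α Ω φ < ⊤)) ∧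
    (Admissible α k Ω → ∀ φ : ℂ → ℝ, ContDiff ℝ ∞ φ → HasCompactSupport φ →
      scaleIntegral α Ω φ < ⊤) ∧
    (α < 1 → (Admissible α k Ω ↔ fracPerimeter α Ω < ⊤)) :=
  ⟨fun _ hφ hc hne => Pool.Agent.T9h61.DB.main1 hΩ hφ hc hne hα hk,
    fun h _ hφ hc => Pool.Agent.T9h61.DB.main2 hΩ hφ hc hα hk h,
    fun h1 => Pool.Agent.T9h61.DB.main3 hΩ hα h1 hk⟩

end Pool.Agent.Results.MP_d3add2_an.AdmissibleSets
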